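import Pool.Agent.Helper51_REV.FIN
import Pool.Agent.Helper36_REV.A2

set_option autoImplicit false

/-!
# Squad REV, part F: centred solutions with an axis of rotation are balls
-/

open MeasureTheory Module Set Filter
open scoped RealInnerProductSpace Pointwise Topology ENNReal

namespace Pool.Agent.REV.H51

open Pool.Agent.Helper55_PB Pool.Agent.Helper28_PB Pool.Agent.BPH Pool.Agent.REV
open Pool.Agent.REV.H36 (tot tot_eq)

/-- the moment orthogonal to the axis is `RA` at `1` -/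
theorem RA_one {n : ℕ} (hn : 4 ≤ n) (f : ℝ → ℝ) :
    RA n (tot f) 1 = ∫ r in (0 : ℝ)..1,
      (1 - r ^ 2) ^ (((n : ℝ) - 3) / 2) * (Real.sqrt (1 - r ^ 2) * f r) := by
  unfold RA
  apply intervalIntegral.integral_congr
  intro r hr
  rw [uIcc_of_le zero_le_one] at hr
  simp only [mul_one, tot_eq _ hr]
  have h1 : 0 ≤ 1 - r ^ 2 := by nlinarith [hr.1, hr.2]
  have h4 : (4 : ℝ) ≤ n := by exact_mod_cast hn
  rw [← mul_assoc, Real.sqrt_eq_rpow]
  rcases h1.eq_or_lt with h0 | h0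
  · rw [← h0, Real.zero_rpow (by norm_num : (1 / 2 : ℝ) ≠ 0), mul_zero, Real.zero_rpow]
    intro h
    linarith
  · rw [← Real.rpow_add h0]
    congr 2
    ring

/-- scaling exponent: powers of numbers near `1` -/
theorem exists_pow_small {lam B N ε : ℝ} (h0 : 0 ≤ lam) (h1 : lam < 1) (hB : 0 ≤ B) (hN : 0 ≤ N)
    (hε : 0 < ε) : ∃ k : ℕ, (1 + lam ^ k * B) ^ N ≤ Real.exp ε := by
  obtain ⟨k, hk⟩ := exists_pow_lt_of_lt_one (show 0 < ε / (N * B + 1) by positivity) h1
  refine ⟨k, ?_⟩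
  have hx : 0 ≤ lam ^ k * B := by positivity
  have h2 : 1 + lam ^ k * B ≤ Real.exp (lam ^ k * B) := by
    have := Real.add_one_le_exp (lam ^ k * B)
    linarith
  calc (1 + lam ^ k * B) ^ N ≤ (Real.exp (lam ^ k * B)) ^ N :=
        Real.rpow_le_rpow (by positivity) h2 hN
    _ = Real.exp (lam ^ k * B * N) := by rw [← Real.exp_mul]
    _ ≤ Real.exp ε := by
        apply Real.exp_le_exp.2
        have h3 : 0 ≤ N * B := by positivity
        have h4 : lam ^ k * (N * B + 1) ≤ ε := by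
          rw [lt_div_iff₀ (by positivity)] at hk
          exact hk.le
        have h5 : 0 ≤ lam ^ k := by positivity
        nlinarith

section

variable {E : Type} [NormedAddCommGroup E] [InnerProductSpace ℝ E] [FiniteDimensional ℝ E]
  [MeasurableSpace E] [BorelSpace E]

theorem ZZ_nonneg {i : ℕ} {f : E → ℝ} (hf : Dens f) : 0 ≤ ZZ i f :=
  integral_nonneg fun _ => mul_nonneg (Real.sqrt_nonneg _)
    (Finset.prod_nonneg fun _ _ => hf.nonneg _)

/-- a unit vector orthogonal to a given one -/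
theorem exists_perp (hn : 2 ≤ finrank ℝ E) (e : E) : ∃ w : E, ‖w‖ = 1 ∧ ⟪e, w⟫ = 0 := by
  have h1 : finrank ℝ (ℝ ∙ e) + finrank ℝ (ℝ ∙ e)ᗮ = finrank ℝ E :=
    Submodule.finrank_add_finrank_orthogonal _
  have h2 : finrank ℝ (ℝ ∙ e) ≤ 1 := by
    simpa using finrank_span_le_card (R := ℝ) ({e} : Set E)
  have h3 : 0 < finrank ℝ (ℝ ∙ e)ᗮ := by omega
  have hnt : Nontrivial ((ℝ ∙ e)ᗮ : Submodule ℝ E) :=
    Module.nontrivial_of_finrank_pos (R := ℝ) h3
  obtain ⟨w, hw⟩ := exists_norm_eq ((ℝ ∙ e)ᗮ : Submodule ℝ E) (zero_le_one (α := ℝ))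
  refine ⟨w, by simpa using hw, ?_⟩
  exact (Submodule.mem_orthogonal_singleton_iff_inner_right.1 w.2)

/-- a centred solution which is invariant under the rotations around `e` is a ball -/
theorem rev_main (sp : SPH) (pin : PINStmt) (geo : GEOStmt) (zak : ZAKStmt) (law : LawStmt)
    (g1 : G1Stmt) (g2 : G2Stmt) (svn : SvnStmt) (con : ConStmt) (sca : ScaStmt) (bnd : BndStmt)
    {i m : ℕ} (hi : 1 ≤ i) (hm : 1 ≤ m) (hn : m + i + 1 = finrank ℝ E) (h4 : 4 ≤ finrank ℝ E)
    {K : Set E} {c : ℝ} (hK : Centred m K c) {e : E} (he : ‖e‖ = 1) (hrev : RevB e K) :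
    ∃ r : ℝ, 0 < r ∧ K = Metric.closedBall (0 : E) r := by
  have hn0 : 0 < finrank ℝ E := by omega
  have hnt : Nontrivial E := Module.nontrivial_of_finrank_pos (R := ℝ) hn0
  have hnR : (0 : ℝ) < finrank ℝ E := by exact_mod_cast hn0
  -- bounds of the support function
  obtain ⟨r, hr, hball⟩ := exists_ball_zero hK.zero_mem
  have hrK : ∀ w : E, ‖w‖ = 1 → r ≤ supportFn K w := by
    intro w hw
    have := le_supportFn_of_ball hK.cc.cpt hr.le hball w
    rwa [hw, mul_one] at this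
  obtain ⟨R, hR, hRK⟩ : ∃ R : ℝ, 0 < R ∧ ∀ w : E, ‖w‖ = 1 → supportFn K w ≤ R := by
    have hsph : IsCompact (Metric.sphere (0 : E) 1) := isCompact_sphere 0 1
    have hcont := continuous_supportFn hK.cc.cpt hK.cc.ne
    obtain ⟨e₀, he₀⟩ := exists_norm_eq E zero_le_one
    obtain ⟨u, hu, hmax⟩ := hsph.exists_isMaxOn ⟨e₀, by simpa using he₀⟩ hcont.continuousOn
    have hu' : ‖u‖ = 1 := by simpa using hu
    exact ⟨supportFn K u, hr.trans_le (hrK u hu'), fun w hw => hmax (by simpa using hw)⟩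
  obtain ⟨κ, hκ, hmof⟩ := mof (E := E) sp law (by omega)
  obtain ⟨C1, C2, hC1, hC2, hC1', hstep⟩ := g2 (E := E) i hi (by omega) h4
  have hC1pos : 0 < C1 := hC1' (by omega)
  set c1 : ℝ := r / (Real.exp 1 ^ 2 * R * finrank ℝ E) with hc1
  have hc1pos : 0 < c1 := by positivity
  obtain ⟨B, hB0, hB⟩ := svn (finrank ℝ E) i C1 C2 (1 / κ) (c1 / κ) h4 hi (by omega) hC1pos hC2.le
    (by positivity) (by positivity)
  set lam : ℝ := ((i : ℝ) + 2) / ((finrank ℝ E : ℝ) + 1) with hlam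
  have hin : (i : ℝ) + 2 ≤ finrank ℝ E := by
    have : i + 2 ≤ finrank ℝ E := by omega
    exact_mod_cast this
  have hlam0 : 0 ≤ lam := by positivity
  have hlam1 : lam < 1 := by
    rw [hlam, div_lt_one (by positivity)]
    linarith
  obtain ⟨w₀, hw₀, hew₀⟩ := exists_perp (E := E) (by omega) e
  -- the key inequality
  have key : ∀ ε : ℝ, 0 < ε → ε ≤ 1 → ∀ u u' : E, ‖u‖ = 1 → ‖u'‖ = 1 →
      supportFn K u ≤ Real.exp (4 * ε) * supportFn K u' := by
    intro ε hε hε1 u u' hu hu'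
    obtain ⟨k, hk⟩ := exists_pow_small (N := ((finrank ℝ E : ℝ) + 1) / 2) hlam0 hlam1 hB0
      (by positivity) hε
    have hi1 : (1 : ℝ) ≤ i := by exact_mod_cast hi
    have hpow : ∀ s : ℕ, (1 : ℝ) ≤ (i : ℝ) ^ s := fun s => one_le_pow₀ hi1
    have hp := hpow (7 + k)
    have hp0 : (0 : ℝ) < (i : ℝ) ^ (7 + k) := by linarith
    set δ : ℝ := ε / (i : ℝ) ^ (7 + k) with hδ
    have hδ0 : 0 < δ := by positivity
    have hδ1 : δ ≤ 1 := by
      rw [hδ, div_le_one hp0]
      linarith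
    have hδs : ∀ s ≤ 7 + k, (i : ℝ) ^ s * δ ≤ ε := by
      intro s hs
      have h1 : (i : ℝ) ^ s ≤ (i : ℝ) ^ (7 + k) := pow_le_pow_right₀ hi1 hs
      calc (i : ℝ) ^ s * δ ≤ (i : ℝ) ^ (7 + k) * δ := mul_le_mul_of_nonneg_right h1 hδ0.le
        _ = ε := by rw [hδ]; field_simp
    obtain ⟨f₀, t₀, hf₀, ht₀, hnear⟩ := g1 K hK.cc hK.zero_mem (zak m K c (by omega) (by omega) hK)
      e he hrev hK.even δ hδ0 hδ1
    obtain ⟨F, t, hF0, hFs, hrec⟩ := orbit geo hi hm hn (hstep e he) hK hf₀ ht₀ hδ0.le hnear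
    have hlow : ∀ s ≤ 7 + k, ∀ w : E, ‖w‖ = 1 → c1 ≤ hz (zon e (F s)) w := by
      intro s hs
      exact near_lower sp hr hR hrK hRK (hFs s).1 (hFs s).2.1 ((hδs s hs).trans hε1) (hFs s).2.2
    have hnn : ∀ s, ∀ x ∈ Icc (0 : ℝ) 1, 0 ≤ F s x := fun s => prof_nonneg he (hFs s).1
    have hcls : ∀ s ≤ 7, Cls (finrank ℝ E) (1 / κ) (c1 / κ) (tot (F s)) := by
      intro s hs
      obtain ⟨hm1, _, hm3⟩ := hmof e he (F s) (hFs s).1
      obtain ⟨C, hC⟩ := prof_bdd he (hFs s).1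
      refine ⟨⟨prof_meas he (hFs s).1, ?_, C, ?_⟩, ?_, ?_⟩
      · intro x hx
        rw [tot_eq _ hx]
        exact hnn s x hx
      · intro x hx
        rw [tot_eq _ hx]
        exact hC x hx
      · have h1 : ∫ x in (0 : ℝ)..1, (1 - x ^ 2) ^ (((finrank ℝ E : ℝ) - 3) / 2) * tot (F s) x =
            ∫ x in (0 : ℝ)..1, (1 - x ^ 2) ^ (((finrank ℝ E : ℝ) - 3) / 2) * F s x := by
          apply intervalIntegral.integral_congr
          intro x hx
          rw [uIcc_of_le zero_le_one] at hx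
          simp only [tot_eq _ hx]
        rw [h1, le_div_iff₀ hκ, mul_comm]
        exact hm1.le
      · rw [RA_one h4, div_le_iff₀ hκ, mul_comm]
        exact (hlow s (by omega) w₀ hw₀).trans (hm3 w₀ hw₀ hew₀)
    have hP7 : Pinch (finrank ℝ E) B (F 7) := by
      have hP := hB (fun s => (ZZ i (zon e (F s)))⁻¹) (fun s => tot (F s)) hcls (by
        intro s hs
        refine ⟨inv_nonneg.2 (ZZ_nonneg (hFs s).1), ?_⟩
        intro x hx
        rw [Pool.Agent.REV.H36.TT_tot _ i C1 C2 (F s) hx, tot_eq _ hx, hrec s])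
      have hEl : ∀ g : ℝ, ∀ x ∈ Icc (0 : ℝ) 1, El (finrank ℝ E) g (tot (F 7)) x =
          El (finrank ℝ E) g (F 7) x := by
        intro g x hx
        unfold El
        rw [tot_eq _ hx]
      refine ⟨?_, ?_⟩
      · intro x hx y hy hxy
        have := hP.1 hx hy hxy
        rwa [hEl _ x hx, hEl _ y hy] at this
      · intro x hx y hy hxy
        have := hP.2 hx hy hxy
        rwa [hEl _ x hx, hEl _ y hy] at this
    have hPk : ∀ j : ℕ, Pinch (finrank ℝ E) (lam ^ j * B) (F (7 + j)) := by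
      intro j
      induction j with
      | zero => simpa using hP7
      | succ j ih =>
        have h1 := con (finrank ℝ E) i C1 C2 (lam ^ j * B) (F (7 + j)) h4 hi (by omega) hC1
          hC2.le (by positivity) (hnn _) ih
        have h2 := sca.1 (finrank ℝ E) _ ((ZZ i (zon e (F (7 + j))))⁻¹) _
          (inv_nonneg.2 (ZZ_nonneg (hFs (7 + j)).1)) h1
        have e1 : F (7 + (j + 1)) = fun x => (ZZ i (zon e (F (7 + j))))⁻¹ *
            TT (finrank ℝ E) i C1 C2 (F (7 + j)) x := hrec (7 + j)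
        rw [e1, pow_succ', mul_assoc]
        exact h2
    have hb := bnd (finrank ℝ E) (lam ^ k * B) (F (7 + k)) (by positivity) (hnn _) (hPk k)
    set D : ℝ := (1 + lam ^ k * B) ^ (((finrank ℝ E : ℝ) + 1) / 2) with hD
    have hDpos : 0 < D := by positivity
    have hratio := hz_ratio sp pin (hFs (7 + k)).1 hDpos hb hu hu'
    have hd := hδs (7 + k) le_rfl
    set d : ℝ := (i : ℝ) ^ (7 + k) * δ with hdd
    have h9 := ((hFs (7 + k)).2.2 u).2
    have h10 := ((hFs (7 + k)).2.2 u').1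
    have ht : 0 < t (7 + k) := (hFs (7 + k)).2.1
    have hhz : 0 ≤ hz (zon e (F (7 + k))) u' :=
      integral_nonneg (fun x => mul_nonneg (abs_nonneg _) ((hFs (7 + k)).1.nonneg x))
    have h13 : t (7 + k) * hz (zon e (F (7 + k))) u' ≤ Real.exp d * supportFn K u' := by
      have h14 := mul_le_mul_of_nonneg_left h10 (Real.exp_pos d).le
      rwa [← mul_assoc, ← Real.exp_add, add_neg_cancel, Real.exp_zero, one_mul] at h14
    have hs' : 0 ≤ supportFn K u' := hr.le.trans (hrK u' hu')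
    calc supportFn K u ≤ Real.exp d * (t (7 + k) * hz (zon e (F (7 + k))) u) := h9
      _ ≤ Real.exp d * (t (7 + k) * (D ^ 2 * hz (zon e (F (7 + k))) u')) := by gcongr
      _ = Real.exp d * D ^ 2 * (t (7 + k) * hz (zon e (F (7 + k))) u') := by ring
      _ ≤ Real.exp d * D ^ 2 * (Real.exp d * supportFn K u') := by gcongr
      _ ≤ Real.exp ε * (Real.exp ε) ^ 2 * (Real.exp ε * supportFn K u') := by
          have h1 : Real.exp d ≤ Real.exp ε := Real.exp_le_exp.2 hd
          gcongr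
      _ = Real.exp (4 * ε) * supportFn K u' := by
          have h1 : Real.exp (4 * ε) = Real.exp ε ^ 4 := by
            rw [← Real.exp_nat_mul]
            norm_num
          rw [h1]
          ring
  have hle : ∀ u u' : E, ‖u‖ = 1 → ‖u'‖ = 1 → supportFn K u ≤ supportFn K u' := by
    intro u u' hu hu'
    have h2 : Tendsto (fun ε : ℝ => Real.exp (4 * ε) * supportFn K u') (𝓝[>] 0)
        (𝓝 (Real.exp (4 * 0) * supportFn K u')) :=
      (Continuous.tendsto (by fun_prop) 0).mono_left nhdsWithin_le_nhds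
    have h3 : supportFn K u ≤ Real.exp (4 * 0) * supportFn K u' := by
      refine ge_of_tendsto h2 ?_
      have h4 : ∀ᶠ ε : ℝ in 𝓝[>] 0, ε < 1 :=
        mem_nhdsWithin_of_mem_nhds (Iio_mem_nhds one_pos)
      filter_upwards [self_mem_nhdsWithin, h4] with ε hε hε1
      exact key ε hε hε1.le u u' hu hu'
    rwa [mul_zero, Real.exp_zero, one_mul] at h3
  obtain ⟨e₀, he₀⟩ := exists_norm_eq E zero_le_one
  refine ⟨supportFn K e₀, hr.trans_le (hrK e₀ he₀), Subset.antisymm ?_ ?_⟩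
  · exact subset_closedBall_of_max hK.cc (hr.le.trans (hrK e₀ he₀)) (fun w hw => hle w e₀ hw he₀)
  · exact closedBall_subset_of_min hK.cc (fun w hw => hle e₀ w he₀ hw)

end

end Pool.Agent.REV.H51
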