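import Pool.Agent.REV.Ifc
import Pool.Agent.Helper55_PB.BallsFin

set_option autoImplicit false

/-!
# Squad REV, part F: bodies of revolution, the centre is on the axis
-/

open MeasureTheory Module Set Filter
open scoped RealInnerProductSpace Pointwise Topology ENNReal

namespace Pool.Agent.REV.H51

open Pool.Agent.Helper55_PB Pool.Agent.Helper28_PB Pool.Agent.BPH Pool.Agent.REV

/-- `K` is a set of revolution: for some point `x₀` and some unit vector `e` it is invariant under
every isometry which fixes all points of the line through `x₀` in the direction `e`. -/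
def IsRevolution {E : Type} [NormedAddCommGroup E] [InnerProductSpace ℝ E] (K : Set E) : Prop :=
  ∃ x₀ e : E, ‖e‖ = 1 ∧ ∀ T : E ≃ₗᵢ[ℝ] E, T e = e → (fun y => x₀ + T (y - x₀)) '' K = K

section

variable {E : Type} [NormedAddCommGroup E] [InnerProductSpace ℝ E] [FiniteDimensional ℝ E]
  [MeasurableSpace E] [BorelSpace E]

omit [MeasurableSpace E] [BorelSpace E] in
/-- a convex body with an even support function is symmetric -/
theorem neg_mem_of_even {K : Set E} (hK : CC K)
    (heven : ∀ w : E, supportFn K (-w) = supportFn K w) {x : E} (hx : x ∈ K) : -x ∈ K := by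
  refine mem_of_support_le hK.cpt hK.cvx hK.ne ?_
  intro u
  have h1 := inner_le_supportFn hK.cpt hx (-u)
  rw [heven] at h1
  rw [inner_neg_left]
  rwa [inner_neg_right] at h1

omit [MeasurableSpace E] [BorelSpace E] in
/-- the centred translate of a body of revolution is invariant under the linear isometries which
fix the direction of the axis -/
theorem revB_of_translate {K K' : Set E} {a x₀ e : E} (hK' : K' = (fun y => a + y) '' K)
    (hcc : CC K') (heven : ∀ w : E, supportFn K' (-w) = supportFn K' w)
    (hrev : ∀ T : E ≃ₗᵢ[ℝ] E, T e = e → (fun y => x₀ + T (y - x₀)) '' K = K) : RevB e K' := by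
  intro T hT
  set b : E := (a + x₀) - T (a + x₀) with hb
  have hg : (fun y => b + T y) '' K' = K' := by
    have h1 := hrev T hT
    rw [hK']
    ext p
    constructor
    · rintro ⟨_, ⟨y, hy, rfl⟩, rfl⟩
      refine ⟨x₀ + T (y - x₀), ?_, ?_⟩
      · rw [← h1]
        exact ⟨y, hy, rfl⟩
      · show a + (x₀ + T (y - x₀)) = b + T (a + y)
        rw [hb, map_add, map_sub, map_add]
        abel
    · rintro ⟨y, hy, rfl⟩
      rw [← h1] at hy
      obtain ⟨z, hz, rfl⟩ := hy
      refine ⟨a + z, ⟨z, hz, rfl⟩, ?_⟩
      show b + T (a + z) = a + (x₀ + T (z - x₀))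
      rw [hb, map_add, map_sub, map_add]
      abel
  have hneg : ∀ x ∈ K', -x ∈ K' := fun x hx => neg_mem_of_even hcc heven hx
  have hb0 : b = 0 := by
    obtain ⟨x, hx, hmax⟩ := hcc.cpt.exists_isMaxOn hcc.ne
      (f := fun x : E => ⟪T x, b⟫) (by fun_prop)
    have hp : b + T x ∈ K' := by
      rw [← hg]
      exact ⟨x, hx, rfl⟩
    have hq := hneg _ hp
    rw [← hg] at hq
    obtain ⟨y, hy, hy'⟩ := hq
    have h1 : ⟪T (-y), b⟫ ≤ ⟪T x, b⟫ := hmax (hneg y hy)
    have h2 : b + T y = -(b + T x) := hy'
    have h3 : T (-y) = b + (b + T x) := by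
      rw [map_neg]
      have : T y = -(b + T x) - b := by rw [← h2]; abel
      rw [this]
      abel
    rw [h3, inner_add_left, inner_add_left, real_inner_self_eq_norm_sq] at h1
    have h4 : ‖b‖ ^ 2 ≤ 0 := by linarith
    have h5 : ‖b‖ = 0 := by nlinarith [sq_nonneg ‖b‖, norm_nonneg b]
    exact norm_eq_zero.1 h5
  rw [hb0] at hg
  simpa using hg

end

end Pool.Agent.REV.H51
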