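import Pool.Agent.Helper51_REV.MAIN
import Pool.Agent.Helper51_REV.CTR

set_option autoImplicit false

/-!
# Squad REV, part F: from solutions to centred solutions
-/

open MeasureTheory Module Set Filter
open scoped RealInnerProductSpace Pointwise Topology ENNReal

namespace Pool.Agent.REV.H51

open Pool.Agent.Helper55_PB Pool.Agent.Helper28_PB Pool.Agent.BPH Pool.Agent.REV

/-- bodies of revolution, dimension at least four -/
theorem ball_of_rev (sp : SPH) (pin : PINStmt) (geo : GEOStmt) (zak : ZAKStmt) (law : LawStmt)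
    (g1 : G1Stmt) (g2 : G2Stmt) (svn : SvnStmt) (con : ConStmt) (sca : ScaStmt) (bnd : BndStmt)
    {E : Type} [NormedAddCommGroup E] [InnerProductSpace ℝ E] [FiniteDimensional ℝ E]
    [MeasurableSpace E] [BorelSpace E] {i : ℕ} (hi : 1 ≤ i) (hin : i + 2 ≤ finrank ℝ E)
    (h4 : 4 ≤ finrank ℝ E) {K L : Set E} (hK : IsConvexBody K)
    (hL : IsProjectionBodyOfOrder i K L) (hKL : Homothetic K L) (hrev : IsRevolution K) :
    ∃ (x : E) (r : ℝ), 0 < r ∧ K = Metric.closedBall x r := by
  have hlim : LimStmt := lim_of vd_sum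
  obtain ⟨a, K', c, hK', hG⟩ := exists_midGood (by omega) hK hL hKL
  have hC := MidGood.centred hlim vd_mono hi hin hG
  obtain ⟨x₀, e, he, hinv⟩ := hrev
  have hR : RevB e K' := revB_of_translate hK' hC.cc hC.even hinv
  obtain ⟨r, hr, hr'⟩ := rev_main sp pin geo zak law g1 g2 svn con sca bnd hi
    (m := finrank ℝ E - 1 - i) (by omega) (by omega) h4 hC he hR
  refine ⟨-a, r, hr, ?_⟩
  have h1 : K = (fun y => -a + y) '' K' := by
    rw [hK', image_image]
    simp
  rw [h1, hr']
  ext z
  constructor
  · rintro ⟨y, hy, rfl⟩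
    rw [Metric.mem_closedBall, dist_zero_right] at hy
    rw [Metric.mem_closedBall, dist_eq_norm]
    simpa using hy
  · intro hz
    rw [Metric.mem_closedBall, dist_eq_norm] at hz
    refine ⟨a + z, ?_, by simp⟩
    rw [Metric.mem_closedBall, dist_zero_right]
    rwa [sub_neg_eq_add, add_comm] at hz

/-- a closed ball is a set of revolution -/
theorem isRevolution_ball {E : Type} [NormedAddCommGroup E] [InnerProductSpace ℝ E]
    [Nontrivial E] (x : E) (r : ℝ) : IsRevolution (Metric.closedBall x r) := by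
  obtain ⟨e, he⟩ := exists_norm_eq E (zero_le_one (α := ℝ))
  refine ⟨x, e, he, ?_⟩
  intro T _
  ext z
  constructor
  · rintro ⟨y, hy, rfl⟩
    rw [Metric.mem_closedBall, dist_eq_norm] at hy ⊢
    rw [add_sub_cancel_left, LinearIsometryEquiv.norm_map]
    exact hy
  · intro hz
    rw [Metric.mem_closedBall, dist_eq_norm] at hz
    refine ⟨x + T.symm (z - x), ?_, ?_⟩
    · rw [Metric.mem_closedBall, dist_eq_norm, add_sub_cancel_left,
        LinearIsometryEquiv.norm_map]
      exact hz
    · show x + T (x + T.symm (z - x) - x) = z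
      rw [add_sub_cancel_left, LinearIsometryEquiv.apply_symm_apply]
      abel

end Pool.Agent.REV.H51
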