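import Pool.Agent.Helper51_REV.MOF
import Pool.Agent.REV.StmtsA1
import Pool.Agent.BPH.Ite

set_option autoImplicit false

/-!
# Squad REV, part F: the iteration, bodies of revolution are balls
-/

open MeasureTheory Module Set Filter
open scoped RealInnerProductSpace Pointwise Topology ENNReal

namespace Pool.Agent.REV.H51

open Pool.Agent.Helper55_PB Pool.Agent.Helper28_PB Pool.Agent.BPH Pool.Agent.REV

section

variable {E : Type} [NormedAddCommGroup E] [InnerProductSpace ℝ E] [FiniteDimensional ℝ E]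
  [MeasurableSpace E] [BorelSpace E]

/-- the support function of the ball -/
theorem hz_one (sp : SPH) (pin : PINStmt) [Nontrivial E] : ∃ b : ℝ, 0 < b ∧
    ∀ u : E, ‖u‖ = 1 → hz (fun _ : E => (1 : ℝ)) u = b := by
  obtain ⟨b, hb, h⟩ := pin E
  refine ⟨b, hb, fun u hu => ?_⟩
  have hone := Dens.one (E := E) sp
  have hent : ent (fun _ : E => (1 : ℝ)) = 0 := by
    unfold ent
    simp
  by_contra hne
  have hpos : 0 < |hz (fun _ : E => (1 : ℝ)) u - b| := abs_pos.2 (sub_ne_zero.2 hne)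
  obtain ⟨η, hη, hη'⟩ := h (|hz (fun _ : E => (1 : ℝ)) u - b| / 2) (by positivity)
  have := hη' _ hone (by rw [hent]; exact hη.le) u hu
  linarith

/-- an almost constant zonal density has an almost constant support function -/
theorem hz_ratio (sp : SPH) (pin : PINStmt) [Nontrivial E] {e : E} {f : ℝ → ℝ}
    (hf : Dens (zon e f)) {D : ℝ} (hD : 0 < D)
    (h : ∀ r ∈ Icc (0 : ℝ) 1, f 0 ≤ D * f r ∧ f r ≤ D * f 0) {u u' : E} (hu : ‖u‖ = 1)
    (hu' : ‖u'‖ = 1) : hz (zon e f) u ≤ D ^ 2 * hz (zon e f) u' := by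
  obtain ⟨b, hb, hone⟩ := hz_one (E := E) sp pin
  have h1 : hz (zon e f) u ≤ D * f 0 * b := by
    rw [← hone u hu]
    unfold hz
    rw [← integral_const_mul]
    refine integral_mono (hf.integrable_inner sp u)
      (((Dens.one (E := E) sp).integrable_inner sp u).const_mul _) ?_
    intro x
    show |⟪u, x⟫| * f (min |⟪e, x⟫| 1) ≤ D * f 0 * (|⟪u, x⟫| * 1)
    have h2 := (h _ (min_mem e x)).2
    calc |⟪u, x⟫| * f (min |⟪e, x⟫| 1) ≤ |⟪u, x⟫| * (D * f 0) :=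
          mul_le_mul_of_nonneg_left h2 (abs_nonneg _)
      _ = D * f 0 * (|⟪u, x⟫| * 1) := by ring
  have h2 : f 0 * b ≤ D * hz (zon e f) u' := by
    rw [← hone u' hu']
    unfold hz
    rw [← integral_const_mul, ← integral_const_mul]
    refine integral_mono (((Dens.one (E := E) sp).integrable_inner sp u').const_mul _)
      ((hf.integrable_inner sp u').const_mul _) ?_
    intro x
    show f 0 * (|⟪u', x⟫| * 1) ≤ D * (|⟪u', x⟫| * f (min |⟪e, x⟫| 1))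
    have h2 := (h _ (min_mem e x)).1
    calc f 0 * (|⟪u', x⟫| * 1) = |⟪u', x⟫| * f 0 := by ring
      _ ≤ |⟪u', x⟫| * (D * f (min |⟪e, x⟫| 1)) :=
          mul_le_mul_of_nonneg_left h2 (abs_nonneg _)
      _ = D * (|⟪u', x⟫| * f (min |⟪e, x⟫| 1)) := by ring
  calc hz (zon e f) u ≤ D * f 0 * b := h1
    _ = D * (f 0 * b) := by ring
    _ ≤ D * (D * hz (zon e f) u') := mul_le_mul_of_nonneg_left h2 hD.le
    _ = D ^ 2 * hz (zon e f) u' := by ring

/-- the orbit of a zonal density -/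
theorem orbit (geo : GEOStmt) {i m : ℕ} (hi : 1 ≤ i) (hm : 1 ≤ m)
    (hn : m + i + 1 = finrank ℝ E) {C1 C2 : ℝ} {e : E}
    (hstep : ∀ f : ℝ → ℝ, Dens (zon e f) →
      Dens (zon e fun t => (ZZ i (zon e f))⁻¹ * TT (finrank ℝ E) i C1 C2 f t) ∧
      IsStep i (zon e f) (zon e fun t => (ZZ i (zon e f))⁻¹ * TT (finrank ℝ E) i C1 C2 f t))
    {K : Set E} {c : ℝ} (hK : Centred m K c) {f₀ : ℝ → ℝ} (hf₀ : Dens (zon e f₀)) {t₀ δ : ℝ}
    (ht₀ : 0 < t₀) (hδ0 : 0 ≤ δ) (hnear : Nr K (zon e f₀) t₀ δ) :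
    ∃ (F : ℕ → ℝ → ℝ) (t : ℕ → ℝ), F 0 = f₀ ∧
      (∀ s, Dens (zon e (F s)) ∧ 0 < t s ∧ Nr K (zon e (F s)) (t s) ((i : ℝ) ^ s * δ)) ∧
      ∀ s, F (s + 1) = fun x => (ZZ i (zon e (F s)))⁻¹ * TT (finrank ℝ E) i C1 C2 (F s) x := by
  set Φ : (ℝ → ℝ) → (ℝ → ℝ) := fun f x => (ZZ i (zon e f))⁻¹ * TT (finrank ℝ E) i C1 C2 f x
    with hΦ
  set F : ℕ → ℝ → ℝ := fun s => Φ^[s] f₀ with hF
  have hF0 : F 0 = f₀ := rfl
  have hFs : ∀ s, F (s + 1) = Φ (F s) := fun s => Function.iterate_succ_apply' Φ s f₀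
  have key : ∀ s, Dens (zon e (F s)) ∧ ∃ t : ℝ, 0 < t ∧ Nr K (zon e (F s)) t ((i : ℝ) ^ s * δ) := by
    intro s
    induction s with
    | zero =>
      rw [hF0, pow_zero, one_mul]
      exact ⟨hf₀, t₀, ht₀, hnear⟩
    | succ s ih =>
      obtain ⟨hd, t, ht, hnr⟩ := ih
      obtain ⟨hd', hst⟩ := hstep (F s) hd
      have e1 : (zon e fun t => (ZZ i (zon e (F s)))⁻¹ * TT (finrank ℝ E) i C1 C2 (F s) t) =
          zon e (F (s + 1)) := by rw [hFs s]
      rw [e1] at hd' hst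
      obtain ⟨t', ht', hn'⟩ := geo i m hi hm hn K c hK (zon e (F s)) (zon e (F (s + 1))) hd hd' hst
        ((i : ℝ) ^ s * δ) t (by positivity) ht hnr
      refine ⟨hd', t', ht', ?_⟩
      intro w
      have h1 : (i : ℝ) ^ (s + 1) * δ = (i : ℝ) * ((i : ℝ) ^ s * δ) := by ring
      rw [h1]
      exact hn' w
  choose hd t ht hnr using key
  exact ⟨F, t, hF0, fun s => ⟨hd s, ht s, hnr s⟩, hFs⟩

end

end Pool.Agent.REV.H51
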