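import Pool.Agent.Helper51_REV.APX
import Pool.Agent.Helper51_REV.TOP
import Pool.Agent.Helper63_REV.TOPU

set_option autoImplicit false

/-!
# Squad REV, part X: bodies of revolution, `i = n - 1`: ball or cylinder
-/

open MeasureTheory Module Set Filter
open scoped RealInnerProductSpace Pointwise Topology ENNReal

namespace Pool.Agent.REV.H51

open Pool.Agent.Helper55_PB Pool.Agent.Helper28_PB Pool.Agent.BPH Pool.Agent.REV

section

variable {E : Type} [NormedAddCommGroup E] [InnerProductSpace ℝ E] [FiniteDimensional ℝ E]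
  [MeasurableSpace E] [BorelSpace E]

omit [FiniteDimensional ℝ E] [MeasurableSpace E] [BorelSpace E] in
theorem supportFn_inv {K : Set E} {e : E} (hrev : RevB e K) (T : E ≃ₗᵢ[ℝ] E) (hT : T e = e)
    (w : E) : supportFn K (T w) = supportFn K w := by
  have h := hrev T hT
  unfold supportFn
  conv_lhs => rw [← h]
  rw [image_image]
  simp only [LinearIsometryEquiv.inner_map_map]

theorem hz_zon_inv (sp : SPH) {e : E} (f : ℝ → ℝ) (hf : Measurable f) (T : E ≃ₗᵢ[ℝ] E)
    (hT : T e = e) (w : E) : hz (zon e f) (T w) = hz (zon e f) w := by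
  unfold hz
  have hT' : T.symm e = e := by
    rw [LinearIsometryEquiv.symm_apply_eq, hT]
  conv_rhs => rw [← sp.iso T.symm]
  rw [integral_map T.symm.continuous.measurable.aemeasurable]
  · congr 1
    funext x
    have h1 : ⟪w, T.symm x⟫ = ⟪T w, x⟫ := by
      rw [← LinearIsometryEquiv.inner_map_map T w (T.symm x), T.apply_symm_apply]
    have h2 : ⟪e, T.symm x⟫ = ⟪e, x⟫ := by
      rw [← LinearIsometryEquiv.inner_map_map T e (T.symm x), T.apply_symm_apply, hT]
    rw [zon_apply, zon_apply, h1, h2]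
  · have hm : Measurable (zon e f) := hf.comp (by fun_prop)
    exact ((by fun_prop : Measurable fun x : E => |⟪w, x⟫|).mul hm).aestronglyMeasurable

theorem hz_hom (f : E → ℝ) (t : ℝ) (u : E) : hz f (t • u) = |t| * hz f u := by
  unfold hz
  rw [← integral_const_mul]
  congr 1
  funext x
  rw [real_inner_smul_left, abs_mul]
  ring

theorem hz_zon_cont (sp : SPH) [Nontrivial E] {e : E} {f : ℝ → ℝ} (hf : Prf f) :
    Continuous (hz (zon e f)) := by
  have hprob : IsProbabilityMeasure (sph E) := sp.prob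
  obtain ⟨C, hC⟩ := hf.bdd
  have hm : Measurable (zon e f) := hf.meas.comp (by fun_prop)
  rw [continuous_iff_continuousAt]
  intro u
  refine continuousAt_of_dominated (bound := fun _ => (‖u‖ + 1) * C) ?_ ?_ ?_ ?_
  · exact Eventually.of_forall fun w =>
      ((by fun_prop : Measurable fun x : E => |⟪w, x⟫|).mul hm).aestronglyMeasurable
  · filter_upwards [Metric.ball_mem_nhds u one_pos] with w hw
    filter_upwards [sp.norm (E := E)] with x hx
    rw [Metric.mem_ball, dist_eq_norm] at hw
    have h1 : |⟪w, x⟫| ≤ ‖u‖ + 1 := by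
      have h2 := abs_real_inner_le_norm w x
      rw [hx, mul_one] at h2
      have h3 : ‖w‖ ≤ ‖u‖ + ‖w - u‖ := by
        have := norm_add_le u (w - u)
        rwa [add_sub_cancel] at this
      linarith
    rw [norm_mul, Real.norm_eq_abs, Real.norm_eq_abs, abs_abs, zon_apply,
      abs_of_nonneg (hf.nonneg _)]
    exact mul_le_mul h1 (hC _) (hf.nonneg _) (by positivity)
  · exact integrable_const _
  · refine ae_of_all _ fun x => ?_
    exact ((by fun_prop : Continuous fun w : E => |⟪w, x⟫| * zon e f x)).continuousAt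

/-- **Bodies of revolution, `i = n - 1`.** -/
theorem rev_top (sp : SPH) (pin : PINStmt) (zak : ZAKStmt) (g1 : G1Stmt) (zst : ZstStmt)
    (cpo : CpoStmt) (geo0 : Geo0Stmt) (hzb : HzbStmt) (val : ValStmt) (det : DetStmt)
    (cyi : CyiStmt) (dhz : DhzStmt) (hzr : HzrStmt) (ufd : UfdStmt) (h4 : 4 ≤ finrank ℝ E)
    {K : Set E} {c : ℝ} (hK : Centred 0 K c) {e : E} (he : ‖e‖ = 1) (hrev : RevB e K) :
    (∃ r : ℝ, 0 < r ∧ K = Metric.closedBall (0 : E) r) ∨
      ∃ H R : ℝ, 0 < H ∧ 0 < R ∧ K = cyl e H R := by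
  have hnt : Nontrivial E := Module.nontrivial_of_finrank_pos (R := ℝ) (by omega)
  obtain ⟨m, hm, hem⟩ := exists_perp (E := E) (by omega) e
  have hcont := continuous_supportFn hK.cc.cpt hK.cc.ne
  obtain ⟨ρ, hρ, hball⟩ := exists_ball_zero hK.zero_mem
  have hpos : ∀ w : E, ‖w‖ = 1 → 0 < supportFn K w := by
    intro w hw
    have := le_supportFn_of_ball hK.cc.cpt hρ.le hball w
    rw [hw, mul_one] at this
    exact hρ.trans_le this
  have hhom : ∀ (t : ℝ) (w : E), supportFn K (t • w) = |t| * supportFn K w := by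
    intro t w
    rcases le_total 0 t with ht | ht
    · rw [supportFn_smul hK.cc.cpt hK.cc.ne ht, abs_of_nonneg ht]
    · have h1 : t • w = (-t) • (-w) := by rw [neg_smul, smul_neg, neg_neg]
      rw [h1, supportFn_smul hK.cc.cpt hK.cc.ne (neg_nonneg.2 ht), hK.even, abs_of_nonpos ht]
  rcases apx zak g1 zst cpo geo0 hzb val E h4 K c hK e m he hm hem hrev with h | ⟨f, hf, h⟩
  · -- the cylinder
    right
    refine ⟨supportFn K e, supportFn K m, hpos e he, hpos m hm, ?_⟩
    refine cyi (by omega) e _ _ he (hpos e he) (hpos m hm) K hK.cc ?_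
    intro w _
    refine det E e m he hm hem (supportFn K)
      (fun w => supportFn K e * |⟪e, w⟫| + supportFn K m * ‖w - ⟪e, w⟫ • e‖) hcont (by fun_prop)
      hhom ?_ (fun T hT => supportFn_inv hrev T hT) ?_ ?_ w
    · intro t w
      have h1 : t • w - ⟪e, t • w⟫ • e = t • (w - ⟪e, w⟫ • e) := by
        rw [inner_smul_right, smul_sub, smul_smul]
      show supportFn K e * |⟪e, t • w⟫| + supportFn K m * ‖t • w - ⟪e, t • w⟫ • e‖ =
        |t| * (supportFn K e * |⟪e, w⟫| + supportFn K m * ‖w - ⟪e, w⟫ • e‖)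
      rw [h1, norm_smul, inner_smul_right, abs_mul, Real.norm_eq_abs]
      ring
    · intro T hT w
      have h2 : ⟪e, T w⟫ = ⟪e, w⟫ := by
        conv_lhs => rw [← hT]
        rw [LinearIsometryEquiv.inner_map_map]
      have h3 : T w - ⟪e, w⟫ • e = T (w - ⟪e, w⟫ • e) := by
        rw [map_sub, map_smul, hT]
      simp only [h2, h3, LinearIsometryEquiv.norm_map]
    · intro b hb
      have h4 : ⟪e, e + b • m⟫ = 1 := by
        rw [inner_add_right, real_inner_self_eq_norm_sq, he, inner_smul_right, hem]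
        norm_num
      have h5 : e + b • m - (1 : ℝ) • e = b • m := by rw [one_smul, add_sub_cancel_left]
      simp only [h4, h5, abs_one, norm_smul, hm, Real.norm_eq_abs, abs_of_nonneg hb]
      rw [h b hb]
      ring
  · -- a bounded zonal density
    left
    have hall : ∀ w : E, supportFn K w = 1 * hz (zon e f) w := by
      intro w
      rw [one_mul]
      exact det E e m he hm hem (supportFn K) (hz (zon e f)) hcont (hz_zon_cont sp hf) hhom
        (fun t w => hz_hom _ t w) (fun T hT => supportFn_inv hrev T hT)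
        (fun T hT => hz_zon_inv sp f hf.meas T hT) h w
    refine H63.ball_of_profile sp pin dhz hzr zst cpo ufd h4 hK.cc hK.zero_mem ?_ he hf one_pos
      hall
    intro g g' hg hg' hs t ht hN
    obtain ⟨t', ht', hw⟩ := geo0 (finrank ℝ E - 1) (by omega) (by omega) K c hK g g' hg hg' hs 0 t
      le_rfl ht hN
    rw [mul_zero] at hw
    exact ⟨t', ht', hw⟩

/-- **Bodies of revolution, `i = n - 1`**, for solutions which are not centred -/
theorem rev_top_sol (sp : SPH) (pin : PINStmt) (zak : ZAKStmt) (g1 : G1Stmt) (zst : ZstStmt)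
    (cpo : CpoStmt) (geo0 : Geo0Stmt) (hzb : HzbStmt) (val : ValStmt) (det : DetStmt)
    (cyi : CyiStmt) (dhz : DhzStmt) (hzr : HzrStmt) (ufd : UfdStmt) (c0g : C0gStmt)
    (cen : CenStmt) (cyg : CygStmt) (h4 : 4 ≤ finrank ℝ E) {K L : Set E} (hK : IsConvexBody K)
    (hL : IsProjectionBodyOfOrder (finrank ℝ E - 1) K L) (hKL : Homothetic K L)
    (hrev : IsRevolution K) :
    (∃ (x : E) (r : ℝ), 0 < r ∧ K = Metric.closedBall x r) ∨
      ∃ (x e : E) (R : ℝ), ‖e‖ = 1 ∧ 0 < R ∧ K = (fun y => x + y) ''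
        cyl e (R * Real.sqrt (ballVol (finrank ℝ E - 1) / (2 * ballVol (finrank ℝ E - 2)))) R := by
  obtain ⟨a, K', c, hK', hG⟩ := cen K L (by omega) hK hL hKL
  have hC : Centred 0 K' c := c0g (by omega) K' c hG
  obtain ⟨x₀, e, he, hinv⟩ := hrev
  have hR : RevB e K' := revB_of_translate hK' hC.cc hC.even hinv
  have h1 : K = (fun y => -a + y) '' K' := by
    rw [hK', image_image]
    simp
  rcases rev_top sp pin zak g1 zst cpo geo0 hzb val det cyi dhz hzr ufd h4 hC he hR with
    ⟨r, hr, hr'⟩ | ⟨H, R, hH, hR', hc⟩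
  · left
    refine ⟨-a, r, hr, ?_⟩
    rw [h1, hr']
    ext z
    constructor
    · rintro ⟨y, hy, rfl⟩
      rw [Metric.mem_closedBall, dist_zero_right] at hy
      rw [Metric.mem_closedBall, dist_eq_norm]
      simpa using hy
    · intro hz
      rw [Metric.mem_closedBall, dist_eq_norm] at hz
      refine ⟨a + z, ?_, by simp⟩
      rw [Metric.mem_closedBall, dist_zero_right]
      rwa [sub_neg_eq_add, add_comm] at hz
  · right
    refine ⟨-a, e, R, he, hR', ?_⟩
    have h2 := (cyg (by omega) e H R he hH hR').1 ⟨c, hc ▸ hG⟩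
    rw [h1, hc, h2]

/-- converse: the cylinder is a solution of order `n - 1` -/
theorem sol_of_cyl (soc : SocStmt) (cyg : CygStmt)
    (h4 : 4 ≤ finrank ℝ E) (x e : E) (he : ‖e‖ = 1) {R : ℝ} (hR : 0 < R) {K : Set E}
    (hK : K = (fun y => x + y) ''
        cyl e (R * Real.sqrt (ballVol (finrank ℝ E - 1) / (2 * ballVol (finrank ℝ E - 2)))) R) :
    IsConvexBody K ∧ ∃ L : Set E, IsProjectionBodyOfOrder (finrank ℝ E - 1) K L ∧
      Homothetic K L := by
  have h1 : 0 < ballVol (finrank ℝ E - 1) := ballVol_pos _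
  have h2 : 0 < ballVol (finrank ℝ E - 2) := ballVol_pos _
  have hH : 0 < R * Real.sqrt (ballVol (finrank ℝ E - 1) / (2 * ballVol (finrank ℝ E - 2))) := by
    positivity
  obtain ⟨c, hc⟩ := (cyg (E := E) (by omega) e _ R he hH hR).2 rfl
  exact soc K _ x c (by omega) hK hc

end

end Pool.Agent.REV.H51
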