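import Pool.Agent.BPH.All
import Pool.Agent.Helper51_REV.TOP
import Pool.Agent.Helper65_REV.TAU
import Pool.Agent.Helper65_REV.CHV
import Pool.Agent.Helper5_REV.CVA
import Pool.Agent.Helper65_REV.GEN
import Pool.Agent.Helper69_REV.MRA
import Pool.Agent.Helper16_REV.LWA
import Pool.Agent.Helper89_REV.LWB
import Pool.Agent.Helper65_REV.STA
import Pool.Agent.Helper23_REV.STB
import Pool.Agent.Helper24_REV.CONR
import Pool.Agent.Helper66_REV.SCA
import Pool.Agent.Helper80_REV.BND
import Pool.Agent.Helper27_REV.MSU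
import Pool.Agent.Helper97_REV.RAD
import Pool.Agent.Helper95_REV.DEC
import Pool.Agent.Helper10_REV.RLE
import Pool.Agent.Helper77_REV.RLW
import Pool.Agent.Helper54_REV.PAI
import Pool.Agent.Helper32_REV.GAM
import Pool.Agent.Helper13_REV.LLL
import Pool.Agent.Helper13_REV.LLR
import Pool.Agent.Helper11_REV.LLS
import Pool.Agent.Helper70_REV.BP0
import Pool.Agent.Helper6_REV.MPS
import Pool.Agent.Helper1_REV.BPS
import Pool.Agent.Helper76_REV.BPI
import Pool.Agent.Helper50_REV.QME
import Pool.Agent.Helper32_REV.DEQ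
import Pool.Agent.Helper62_REV.AVM
import Pool.Agent.Helper19_REV.AVI
import Pool.Agent.Helper39_REV.AVE
import Pool.Agent.Helper40_REV.MOA
import Pool.Agent.Helper10_REV.MOP
import Pool.Agent.Helper13_REV.MOB
import Pool.Agent.Helper66_REV.ZSM
import Pool.Agent.Helper91_REV.PJW
import Pool.Agent.Helper43_REV.LWH
import Pool.Agent.Helper65_REV.LWU
import Pool.Agent.Helper89_REV.TTP
import Pool.Agent.Helper59_REV.ZQQ
import Pool.Agent.Helper80_REV.CPO
import Pool.Agent.Helper11_REV.G2Z
import Pool.Agent.Helper13_REV.LWZ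
import Pool.Agent.Helper98_REV.G1Z
import Pool.Agent.Helper54_REV.INT
import Pool.Agent.Helper8_REV.CRC
import Pool.Agent.Helper3_REV.MBD
import Pool.Agent.Helper32_REV.YLO
import Pool.Agent.Helper80_REV.FAC
import Pool.Agent.Helper12_REV.PWI
import Pool.Agent.Helper65_REV.RAB
import Pool.Agent.Helper76_REV.RBL
import Pool.Agent.Helper98_REV.RBS
import Pool.Agent.Helper3_REV.SGA
import Pool.Agent.Helper17_REV.SGB
import Pool.Agent.Helper27_REV.STG
import Pool.Agent.Helper62_REV.MON
import Pool.Agent.Helper69_REV.LPA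
import Pool.Agent.Helper17_REV.LPB
import Pool.Agent.Helper95_REV.LOC
import Pool.Agent.Helper89_REV.GLU
import Pool.Agent.Helper23_REV.LOW
import Pool.Agent.Helper36_REV.SVN
import Pool.Agent.Helper36_REV.ANT
import Pool.Agent.Helper36_REV.ZST

set_option autoImplicit false

/-!
# Squad REV: assembly of the rows for target 1 (`1 ≤ i ≤ n - 2`)
-/

open MeasureTheory Module Set Filter
open scoped RealInnerProductSpace Pointwise Topology ENNReal

namespace Pool.Agent.REV.Asm

open Pool.Agent.Helper55_PB Pool.Agent.Helper28_PB Pool.Agent.BPH Pool.Agent.REV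

/-! ### Facts of the squad BPH -/

theorem aSph : SPH := sph_facts
theorem aGwb : GWB := gwb gwa
theorem aSpi : SPIStmt := spi aSph
theorem aBkk : BKKStmt := bkk aSph
theorem aZfu : ZFU := zfu gwa aGwb aSph aSpi
theorem aPin : PINStmt := pin aSph
theorem aZod : ZODStmt := zod aSph aGwb (zot aGwb lea)
theorem aGeo : GEOStmt := geo gwa aSph aSpi aBkk aZfu aZod (zom aSph)
theorem aZak : ZAKStmt := zak (vdz mol) unf

/-! ### Part A1 -/

theorem aTau : TauStmt := H65.tau
theorem aChv : ChvStmt := H65.chv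
theorem aCva : CvaStmt := H5.cva aChv aTau
theorem aCvb : CvbStmt := H65.cvb
theorem aMra : MraStmt := H69.mra aTau
theorem aLwa : LwaStmt := H16.lwa
theorem aLwb : LwbStmt := H89.lwb
theorem aSta : StaStmt := H65.sta aCva aCvb aMra aLwa
theorem aStb : StbStmt := H23.stb aCva aCvb aMra aLwb
theorem aCon : ConStmt := H24.conr aSta aStb
theorem aSca : ScaStmt := H66.sca
theorem aBnd : BndStmt := H80.bnd

/-! ### Part G -/

theorem aMsu : MsuStmt := H27.msu
theorem aRad : RadStmt := H97.rad
theorem aRle : RleStmt := H10.rle H95.dec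
theorem aRlw : RlwStmt := H77.rlw aMsu aRad aRle
theorem aPai : PaiStmt := H54.pai
theorem aMps : MpsStmt := H6.mps
theorem aLls : LlsStmt := H11.lls aRlw H32.gam (H13.lll aPai) (H13.llr aPai)
theorem aBpi : BpiStmt := H76.bpi H70.bp0 (H1.bps aLls aMps)
theorem aDeq : DeqStmt := H32.deq aBpi H50.qme
theorem aAve : AveStmt := H39.ave H62.avm H19.avi
theorem aMob : MobStmt := H13.mob aMps H40.moa H10.mop
theorem aLwh : LwhStmt := H43.lwh aRad aRle H91.pjw
theorem aLwu : LwuStmt := H65.lwu aMsu aLwh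
theorem aZqq : ZqqStmt := H59.zqq aMob H66.zsm aLwu
theorem aLaw : LawStmt := H13.lwz aLwh
theorem aG1 : G1Stmt := H98.g1z aAve

/-! ### Part A2 -/

theorem aInt : IntStmt := H54.int
theorem aCrc : CrcStmt := H8.crc
theorem aMbd : MbdStmt := H3.mbd aInt aCrc
theorem aYlo : YloStmt := H32.ylo aInt aCrc
theorem aFac : FacStmt := H80.fac aInt aYlo
theorem aPwi : PwiStmt := H12.pwi
theorem aRab : RabStmt := H65.rab aInt aPwi
theorem aRbl : RblStmt := H76.rbl aInt aPwi
theorem aRbs : RbsStmt := H98.rbs aInt aPwi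
theorem aSga : SgaStmt := H3.sga aInt aMbd aRbl
theorem aSgb : SgbStmt := H17.sgb aInt aRab aRbl aRbs
theorem aStg : StgStmt := H27.stg aFac aSga aSgb
theorem aMon : MonStmt := H62.mon H65.cvag H65.cvbg H65.mrag
theorem aLpa : LpaStmt := H69.lpa aInt aCrc
theorem aLpb : LpbStmt := H17.lpb aInt aCrc aPwi

/-- all rows together, with the two last ones as hypotheses -/
theorem ball_of_last (ant : AntStmt) (zst : ZstStmt)
    {E : Type} [NormedAddCommGroup E] [InnerProductSpace ℝ E] [FiniteDimensional ℝ E]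
    [MeasurableSpace E] [BorelSpace E] {i : ℕ} (hi : 1 ≤ i) (hin : i + 2 ≤ finrank ℝ E)
    {K L : Set E} (hK : IsConvexBody K) (hL : IsProjectionBodyOfOrder i K L)
    (hKL : Homothetic K L) (hrev : H51.IsRevolution K) :
    ∃ (x : E) (r : ℝ), 0 < r ∧ K = Metric.closedBall x r := by
  by_cases h4 : 4 ≤ finrank ℝ E
  · exact H51.ball_of_rev aSph aPin aGeo aZak aLaw aG1 (H11.g2z zst H80.cpo)
      (H36.svn aStg ant (H23.low aInt aYlo aMon (H95.loc aInt aCrc ant aLpa aLpb) H89.glu) aSta)
      aCon aSca aBnd hi hin h4 hK hL hKL hrev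
  · exact ball_linear hi (by omega) hK hL hKL

/-! ### The last rows -/

theorem aAnt : AntStmt := H36.ant aInt aCrc
theorem aZst : ZstStmt := H36.zst aZfu aDeq aZqq H89.ttp H80.cpo

/-- **Theorem.** For `1 ≤ i ≤ n - 2` a body of revolution which is homothetic to its `i`-th projection
body is a ball. -/
theorem ball_rev
    {E : Type} [NormedAddCommGroup E] [InnerProductSpace ℝ E] [FiniteDimensional ℝ E]
    [MeasurableSpace E] [BorelSpace E] {i : ℕ} (hi : 1 ≤ i) (hin : i + 2 ≤ finrank ℝ E)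
    {K L : Set E} (hK : IsConvexBody K) (hL : IsProjectionBodyOfOrder i K L)
    (hKL : Homothetic K L) (hrev : H51.IsRevolution K) :
    ∃ (x : E) (r : ℝ), 0 < r ∧ K = Metric.closedBall x r :=
  ball_of_last aAnt aZst hi hin hK hL hKL hrev

end Pool.Agent.REV.Asm
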