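import Pool.Agent.Helper51_REV.ASMV
import Pool.Agent.Helper13_REV.ASM3
import Pool.Agent.Helper52_REV.ZQQ3
import Pool.Agent.Helper63_REV.U3All

set_option autoImplicit false

/-!
# Squad REV: assembly for `n ≥ 3`, `i = n - 1`
-/

open MeasureTheory Module Set Filter
open scoped RealInnerProductSpace Pointwise Topology ENNReal

namespace Pool.Agent.REV.Asm

open Pool.Agent.Helper55_PB Pool.Agent.Helper28_PB Pool.Agent.BPH Pool.Agent.REV

variable {E : Type} [NormedAddCommGroup E] [InnerProductSpace ℝ E] [FiniteDimensional ℝ E]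
  [MeasurableSpace E] [BorelSpace E]

/-- **Theorem.** For `n ≥ 3` a body of revolution which is homothetic to its projection body is a ball
or a cylinder with one explicit ratio. -/
theorem rev_top_all (h3 : 3 ≤ finrank ℝ E) {K L : Set E}
    (hK : IsConvexBody K) (hL : IsProjectionBodyOfOrder (finrank ℝ E - 1) K L)
    (hKL : Homothetic K L) (hrev : H51.IsRevolution K) :
    (∃ (x : E) (r : ℝ), 0 < r ∧ K = Metric.closedBall x r) ∨
      ∃ (x e : E) (R : ℝ), ‖e‖ = 1 ∧ 0 < R ∧ K = (fun y => x + y) ''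
        cyl e (R * Real.sqrt (ballVol (finrank ℝ E - 1) / (2 * ballVol (finrank ℝ E - 2)))) R := by
  by_cases h4 : 4 ≤ finrank ℝ E
  · exact rev_top h4 hK hL hKL hrev
  · exact Asm3.top3_of_last (H52.zqq3 aMob H66.zsm Asm3.bLwu) H63.uf3All (by omega) hK hL hKL hrev

/-- the cylinder is a solution -/
theorem sol_cyl_all (h3 : 3 ≤ finrank ℝ E) (x e : E) (he : ‖e‖ = 1) {R : ℝ} (hR : 0 < R)
    {K : Set E} (hK : K = (fun y => x + y) ''
        cyl e (R * Real.sqrt (ballVol (finrank ℝ E - 1) / (2 * ballVol (finrank ℝ E - 2)))) R) :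
    IsConvexBody K ∧ ∃ L : Set E, IsProjectionBodyOfOrder (finrank ℝ E - 1) K L ∧
      Homothetic K L :=
  Asm3.sol_cyl3 (by omega) x e he hR hK

end Pool.Agent.REV.Asm
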