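import Pool.Agent.Helper51_REV.ASM
import Pool.Agent.Helper51_REV.TOPV
import Pool.Agent.Helper36_REV.VAll
import Pool.Agent.Helper63_REV.UAll
import Pool.Agent.Helper59_REV.SLE
import Pool.Agent.Helper49_REV.LWV
import Pool.Agent.Helper27_REV.DHI
import Pool.Agent.Helper23_REV.DHA
import Pool.Agent.Helper6_REV.DHZ
import Pool.Agent.Helper59_REV.HZB
import Pool.Agent.Helper65_REV.DET
import Pool.Agent.Helper26_REV.C0G
import Pool.Agent.Helper10_REV.SVB
import Pool.Agent.Helper46_REV.CYS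
import Pool.Agent.Helper59_REV.CYG
import Pool.Agent.Helper12_REV.CYI
import Pool.Agent.Helper11_REV.CYR
import Pool.Agent.Helper28_REV.PBO
import Pool.Agent.Helper89_REV.CEN
import Pool.Agent.Helper43_REV.SOC
import Pool.Agent.Helper55_REV.GEO0

set_option autoImplicit false

/-!
# Squad REV: assembly of the rows for target 3 (`i = n - 1`, `n ≥ 4`)
-/

open MeasureTheory Module Set Filter
open scoped RealInnerProductSpace Pointwise Topology ENNReal

namespace Pool.Agent.REV.Asm

open Pool.Agent.Helper55_PB Pool.Agent.Helper28_PB Pool.Agent.BPH Pool.Agent.REV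

theorem aSle : SleStmt := H59.sle aLwh
theorem aLwv : LwvStmt := H49.lwv aMsu aLwh
theorem aDha : DhaStmt := H23.dha H27.dhi
theorem aDhz : DhzStmt := H6.dhz aSle aLwv aDha
theorem aHzr : HzrStmt := H59.hzr aDhz
theorem aHzb : HzbStmt := H59.hzb aDhz aLaw H36.vlmAll
theorem aVal : ValStmt := H36.valAll
theorem aUfd : UfdStmt := H63.ufdAll
theorem aDet : DetStmt := H65.det
theorem aC0g : C0gStmt := H26.c0g
theorem aCys : CysStmt := H46.cys H10.svb
theorem aCyg : CygStmt := H59.cyg aCys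
theorem aCyi : CyiStmt := H12.cyi aCys
theorem aCyr : CyrStmt := H11.cyr
theorem aPbo : PboStmt := H28.pbo
theorem aCen : CenStmt := H89.cen aPbo
theorem aSoc : SocStmt := H43.soc aPbo

variable {E : Type} [NormedAddCommGroup E] [InnerProductSpace ℝ E] [FiniteDimensional ℝ E]
  [MeasurableSpace E] [BorelSpace E]

/-- bodies of revolution, `i = n - 1`, with the row GEO0 as a hypothesis -/
theorem top_of_last (geo0 : Geo0Stmt) (h4 : 4 ≤ finrank ℝ E) {K L : Set E}
    (hK : IsConvexBody K) (hL : IsProjectionBodyOfOrder (finrank ℝ E - 1) K L)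
    (hKL : Homothetic K L) (hrev : H51.IsRevolution K) :
    (∃ (x : E) (r : ℝ), 0 < r ∧ K = Metric.closedBall x r) ∨
      ∃ (x e : E) (R : ℝ), ‖e‖ = 1 ∧ 0 < R ∧ K = (fun y => x + y) ''
        cyl e (R * Real.sqrt (ballVol (finrank ℝ E - 1) / (2 * ballVol (finrank ℝ E - 2)))) R :=
  H51.rev_top_sol aSph aPin aZak aG1 aZst H80.cpo geo0 aHzb aVal aDet aCyi aDhz aHzr aUfd aC0g
    aCen aCyg h4 hK hL hKL hrev

theorem aGeo0 : Geo0Stmt := H55.geo0 gwa aSph aSpi aBkk aZfu aGwb (zom aSph)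

/-- **Theorem.** For `n ≥ 4` a body of revolution which is homothetic to its projection body is a ball
or a cylinder with one explicit ratio. -/
theorem rev_top (h4 : 4 ≤ finrank ℝ E) {K L : Set E}
    (hK : IsConvexBody K) (hL : IsProjectionBodyOfOrder (finrank ℝ E - 1) K L)
    (hKL : Homothetic K L) (hrev : H51.IsRevolution K) :
    (∃ (x : E) (r : ℝ), 0 < r ∧ K = Metric.closedBall x r) ∨
      ∃ (x e : E) (R : ℝ), ‖e‖ = 1 ∧ 0 < R ∧ K = (fun y => x + y) ''
        cyl e (R * Real.sqrt (ballVol (finrank ℝ E - 1) / (2 * ballVol (finrank ℝ E - 2)))) R :=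
  top_of_last aGeo0 h4 hK hL hKL hrev

/-- the cylinder is a solution -/
theorem sol_cyl (h4 : 4 ≤ finrank ℝ E) (x e : E) (he : ‖e‖ = 1) {R : ℝ} (hR : 0 < R) {K : Set E}
    (hK : K = (fun y => x + y) ''
        cyl e (R * Real.sqrt (ballVol (finrank ℝ E - 1) / (2 * ballVol (finrank ℝ E - 2)))) R) :
    IsConvexBody K ∧ ∃ L : Set E, IsProjectionBodyOfOrder (finrank ℝ E - 1) K L ∧
      Homothetic K L :=
  H51.sol_of_cyl aSoc aCyg h4 x e he hR hK

end Pool.Agent.REV.Asm
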