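import Pool.Agent.REV.Ifc
import Pool.Agent.BPH.Kit

set_option autoImplicit false

/-!
# Squad REV, part F: moments of zonal densities
-/

open MeasureTheory Module Set Filter
open scoped RealInnerProductSpace Pointwise Topology ENNReal

namespace Pool.Agent.REV.H51

open Pool.Agent.Helper55_PB Pool.Agent.Helper28_PB Pool.Agent.BPH Pool.Agent.REV

section

variable {E : Type} [NormedAddCommGroup E] [InnerProductSpace ℝ E]

theorem zon_apply (e : E) (f : ℝ → ℝ) (x : E) : zon e f x = f (min |⟪e, x⟫| 1) := rfl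

/-- on the unit ball no truncation is needed -/
theorem zon_of_le {e : E} (he : ‖e‖ = 1) (f : ℝ → ℝ) {x : E} (hx : ‖x‖ ≤ 1) :
    zon e f x = f |⟪e, x⟫| := by
  have h : |⟪e, x⟫| ≤ 1 := by
    have := abs_real_inner_le_norm e x
    rw [he, one_mul] at this
    exact this.trans hx
  rw [zon_apply, min_eq_left h]

theorem min_mem (e x : E) : min |⟪e, x⟫| 1 ∈ Icc (0 : ℝ) 1 :=
  ⟨le_min (abs_nonneg _) zero_le_one, min_le_right _ _⟩

/-- the value of a profile as a value of the zonal function -/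
theorem zon_smul {e : E} (he : ‖e‖ = 1) (f : ℝ → ℝ) {r : ℝ} (hr : r ∈ Icc (0 : ℝ) 1) :
    zon e f (r • e) = f r := by
  have h : ⟪e, r • e⟫ = r := by
    rw [real_inner_smul_right, real_inner_self_eq_norm_sq, he]
    ring
  rw [zon_apply, h, abs_of_nonneg hr.1, min_eq_left hr.2]

/-- Bessel inequality for two orthogonal unit vectors -/
theorem bessel_two {e w x : E} (he : ‖e‖ = 1) (hw : ‖w‖ = 1) (hew : ⟪e, w⟫ = 0) :
    ⟪e, x⟫ ^ 2 + ⟪w, x⟫ ^ 2 ≤ ‖x‖ ^ 2 := by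
  have h0 : 0 ≤ ‖x - (⟪e, x⟫ • e + ⟪w, x⟫ • w)‖ ^ 2 := sq_nonneg _
  have h1 : ‖x - (⟪e, x⟫ • e + ⟪w, x⟫ • w)‖ ^ 2 = ‖x‖ ^ 2 - ⟪e, x⟫ ^ 2 - ⟪w, x⟫ ^ 2 := by
    have hwe : ⟪w, e⟫ = 0 := by rw [real_inner_comm]; exact hew
    have a1 : ⟪x, e⟫ = ⟪e, x⟫ := real_inner_comm _ _
    have a2 : ⟪x, w⟫ = ⟪w, x⟫ := real_inner_comm _ _
    rw [norm_sub_sq_real, ← real_inner_self_eq_norm_sq (⟪e, x⟫ • e + ⟪w, x⟫ • w)]
    simp only [inner_add_right, inner_add_left, real_inner_smul_left, real_inner_smul_right,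
      real_inner_self_eq_norm_sq, norm_smul, Real.norm_eq_abs, mul_pow, sq_abs, he, hw, hew, hwe,
      a1, a2]
    ring
  linarith

end

section

variable {E : Type} [NormedAddCommGroup E] [InnerProductSpace ℝ E] [FiniteDimensional ℝ E]
  [MeasurableSpace E] [BorelSpace E]

/-- profile bounds of a zonal density -/
theorem prof_nonneg {e : E} (he : ‖e‖ = 1) {f : ℝ → ℝ} (hf : Dens (zon e f)) :
    ∀ r ∈ Icc (0 : ℝ) 1, 0 ≤ f r := by
  intro r hr
  rw [← zon_smul he f hr]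
  exact hf.nonneg _

theorem prof_bdd {e : E} (he : ‖e‖ = 1) {f : ℝ → ℝ} (hf : Dens (zon e f)) :
    ∃ C, ∀ r ∈ Icc (0 : ℝ) 1, f r ≤ C := by
  obtain ⟨C, hC⟩ := hf.bdd
  refine ⟨C, fun r hr => ?_⟩
  rw [← zon_smul he f hr]
  exact hC _

theorem prof_meas {e : E} (he : ‖e‖ = 1) {f : ℝ → ℝ} (hf : Dens (zon e f)) :
    Measurable (fun r : ℝ => f (min |r| 1)) := by
  have h1 : Measurable (fun r : ℝ => zon e f (r • e)) :=
    hf.meas.comp (by fun_prop)
  have h2 : (fun r : ℝ => zon e f (r • e)) = fun r : ℝ => f (min |r| 1) := by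
    funext r
    rw [zon_apply, real_inner_smul_right, real_inner_self_eq_norm_sq, he, one_pow, mul_one]
  rwa [h2] at h1

/-- mass and moments of a zonal density -/
theorem mof (sp : SPH) (law : LawStmt) (hn : 3 ≤ finrank ℝ E) : ∃ κ : ℝ, 0 < κ ∧
    ∀ e : E, ‖e‖ = 1 → ∀ f : ℝ → ℝ, Dens (zon e f) →
      κ * (∫ r in (0 : ℝ)..1, (1 - r ^ 2) ^ (((finrank ℝ E : ℝ) - 3) / 2) * f r) = 1 ∧
      κ * (∫ r in (0 : ℝ)..1, (1 - r ^ 2) ^ (((finrank ℝ E : ℝ) - 3) / 2) * (r * f r)) =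
        hz (zon e f) e ∧
      ∀ w : E, ‖w‖ = 1 → ⟪e, w⟫ = 0 → hz (zon e f) w ≤
        κ * (∫ r in (0 : ℝ)..1, (1 - r ^ 2) ^ (((finrank ℝ E : ℝ) - 3) / 2) *
          (Real.sqrt (1 - r ^ 2) * f r)) := by
  have hnt : Nontrivial E := Module.nontrivial_of_finrank_pos (R := ℝ) (by omega)
  obtain ⟨κ, hκ, hlaw⟩ := law (E := E) hn
  refine ⟨κ, hκ, ?_⟩
  intro e he f hf
  have hprob : IsProbabilityMeasure (sph E) := sp.prob
  have hnorm : ∀ᵐ x ∂sph E, ‖x‖ = 1 := sp.norm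
  obtain ⟨C, hC⟩ := prof_bdd he hf
  have h0 := prof_nonneg he hf
  have hC0 : 0 ≤ C := (h0 0 ⟨le_refl _, zero_le_one⟩).trans (hC 0 ⟨le_refl _, zero_le_one⟩)
  refine ⟨?_, ?_, ?_⟩
  · rw [← hlaw e he f hf.meas ⟨C, fun r hr => by rw [abs_of_nonneg (h0 r hr)]; exact hC r hr⟩]
    exact hf.int
  · rw [← hlaw e he (fun r => r * f r) ?_ ⟨C, fun r hr => ?_⟩]
    · unfold hz
      refine integral_congr_ae ?_
      filter_upwards [hnorm] with x hx
      have h1 : |⟪e, x⟫| ≤ 1 := by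
        have := abs_real_inner_le_norm e x
        rwa [he, hx, one_mul] at this
      show min |⟪e, x⟫| 1 * f (min |⟪e, x⟫| 1) = |⟪e, x⟫| * f (min |⟪e, x⟫| 1)
      rw [min_eq_left h1]
    · show Measurable fun x : E => min |⟪e, x⟫| 1 * zon e f x
      exact (by fun_prop : Measurable fun x : E => min |⟪e, x⟫| 1).mul hf.meas
    · rw [abs_of_nonneg (mul_nonneg hr.1 (h0 r hr))]
      calc r * f r ≤ 1 * C := mul_le_mul hr.2 (hC r hr) (h0 r hr) zero_le_one
        _ = C := one_mul C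
  · intro w hw hew
    have hm : Measurable (zon e fun r => Real.sqrt (1 - r ^ 2) * f r) := by
      show Measurable fun x : E => Real.sqrt (1 - (min |⟪e, x⟫| 1) ^ 2) * zon e f x
      exact (by fun_prop : Measurable fun x : E => Real.sqrt (1 - (min |⟪e, x⟫| 1) ^ 2)).mul
        hf.meas
    have hb : ∀ r ∈ Icc (0 : ℝ) 1, |Real.sqrt (1 - r ^ 2) * f r| ≤ C := by
      intro r hr
      rw [abs_of_nonneg (mul_nonneg (Real.sqrt_nonneg _) (h0 r hr))]
      have h1 : Real.sqrt (1 - r ^ 2) ≤ 1 := by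
        rw [Real.sqrt_le_one]
        nlinarith [hr.1]
      calc Real.sqrt (1 - r ^ 2) * f r ≤ 1 * C :=
            mul_le_mul h1 (hC r hr) (h0 r hr) zero_le_one
        _ = C := one_mul C
    rw [← hlaw e he (fun r => Real.sqrt (1 - r ^ 2) * f r) hm ⟨C, hb⟩]
    unfold hz
    refine integral_mono_ae (hf.integrable_inner sp w) ?_ ?_
    · refine integrable_bdd hm (C := C) ?_
      exact Eventually.of_forall fun x => hb _ (min_mem e x)
    · filter_upwards [hnorm] with x hx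
      have h1 : |⟪e, x⟫| ≤ 1 := by
        have := abs_real_inner_le_norm e x
        rwa [he, hx, one_mul] at this
      show |⟪w, x⟫| * zon e f x ≤ Real.sqrt (1 - (min |⟪e, x⟫| 1) ^ 2) * zon e f x
      refine mul_le_mul_of_nonneg_right ?_ (hf.nonneg x)
      rw [min_eq_left h1, sq_abs]
      refine Real.le_sqrt_of_sq_le ?_
      rw [sq_abs]
      have := bessel_two he hw hew (x := x)
      rw [hx] at this
      linarith

end

end Pool.Agent.REV.H51
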